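import Pool.Agent.W467.FG.E
import Pool.Agent.W467.FO.F

/-!
# Complete intersections from split bundles; the main theorem (helper467)
-/

set_option autoImplicit false
set_option maxHeartbeats 400000

open MvPolynomial H960VB H938TB Pool.Agent.W615 Pool.Agent.W467.FO

namespace Pool.Agent.W467.FX

variable {n : ℕ} {E : Bundle2 n} {s : Vec E.a n} {I : Ideal (MvPolynomial (Fin (n + 1)) ℂ)}
variable (Z : ZS E s I) (W : Wedge (triv E)) {T : (Fin (n + 1) → ℂ) →ₗ[ℂ] (Fin (n + 1) → ℂ)}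

/-- the first Chern class from a line -/
theorem kappa_of_line {P Q : Fin (n + 1) → ℂ} (hPQ : LinearIndependent ℂ ![P, Q]) {p q : ℤ}
    (hs : E.SplitsOn P Q p q) : W.κ.1 = p + q := by
  have hL := ln_injective hPQ
  set L := ln P Q with hLdef
  obtain ⟨W'⟩ := exists_wedge (le_refl 1) (triv (E.pull L hL))
  obtain ⟨hκ', ω, hω, hres⟩ := wd_restrict L hL W W' (le_refl 1)
  obtain ⟨g₁, g₂, hg₁, hg₂, hg⟩ := hs
  have s₁ : Sec (E.pull L hL) (-p) g₁ := by
    apply sec_of_isSection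
    refine ⟨fun i => hg₁ i, fun z hz => ?_⟩
    rw [Bundle2.fib_pull]
    exact (hg z hz).1
  have s₂ : Sec (E.pull L hL) (-q) g₂ := by
    apply sec_of_isSection
    refine ⟨fun i => hg₂ i, fun z hz => ?_⟩
    rw [Bundle2.fib_pull]
    exact (hg z hz).2.1
  obtain ⟨c, hc, hc'⟩ := const_of_no_zero (m := 1 + 1) (le_refl 2) (p := W'.wd g₁ g₂)
    (fun z hz => (W'.ind z hz g₁ g₂ s₁.ker s₂.ker).2 (hg z hz).2.2)
  have h1 := wh_triv (wd_homZ W' s₁ s₂)
  rw [hc'] at h1
  have h2 : IsWeightedHomogeneous (tw (0 : Fin (1 + 1) → ℤ × ℤ)) (C c : MvPolynomial _ ℂ)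
      ((0, 0) : M) := wh_triv (Or.inr ⟨0, rfl, isHomogeneous_C _ c⟩)
  have h3 := congrArg Prod.fst (h1.inj_right (by rw [Ne, C_eq_zero]; exact hc) h2)
  rw [← hκ']
  have h4 : -p + -q + W'.κ.1 = 0 := h3
  linarith

/-- ideals generated by two coprime elements are saturated -/
theorem sat_two {σ : Type*} [DecidableEq σ] {a b : MvPolynomial σ ℂ} (hab : IsRelPrime b a)
    (hb : b ≠ 0) (i0 i1 i2 : σ) (h02 : i0 ≠ i2) (h12 : i1 ≠ i2) (h01 : i0 ≠ i1) (N : ℕ)
    {F : MvPolynomial σ ℂ} (h0 : X i0 ^ N * F ∈ Ideal.span {a, b})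
    (h1 : X i1 ^ N * F ∈ Ideal.span {a, b}) (h2 : X i2 ^ N * F ∈ Ideal.span {a, b}) :
    F ∈ Ideal.span {a, b} := by
  rw [Ideal.mem_span_pair] at h0 h1 h2
  obtain ⟨u0, v0, e0⟩ := h0
  obtain ⟨u1, v1, e1⟩ := h1
  obtain ⟨u2, v2, e2⟩ := h2
  have key : ∀ {u v u' v' p p' : MvPolynomial σ ℂ}, u * a + v * b = p * F →
      u' * a + v' * b = p' * F → ∃ t, p' * u - p * u' = b * t := by
    intro u v u' v' p p' h h'
    have h3 : b ∣ a * (p' * u - p * u') := by
      refine ⟨p * v' - p' * v, ?_⟩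
      linear_combination p' * h - p * h'
    obtain ⟨t, ht⟩ := hab.dvd_of_dvd_mul_left h3
    exact ⟨t, ht⟩
  obtain ⟨t01, h01'⟩ := key e0 e1
  obtain ⟨t12, h12'⟩ := key e1 e2
  obtain ⟨t20, h20'⟩ := key e2 e0
  have hrel : X i2 ^ N * t01 = X i1 ^ N * (-t20) - X i0 ^ N * t12 := by
    apply mul_left_cancel₀ hb
    linear_combination -(X i2 ^ N) * h01' - X i0 ^ N * h12' - X i1 ^ N * h20'
  obtain ⟨b₀, b₁, hbb⟩ := H1_mono i0 i1 i2 h02 h12 N t01 (-t20) t12 hrel
  have hdv : ∀ {p q : MvPolynomial σ ℂ}, X i1 ^ N * p = X i0 ^ N * q → X i0 ^ N ∣ p := by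
    intro p q h
    refine Prime.pow_dvd_of_dvd_mul_left (X_prime (i := i0) (R := ℂ)) N (a := X i1 ^ N) ?_ ⟨_, h⟩
    intro h5
    have h6 := (X_prime (i := i0) (R := ℂ)).dvd_of_dvd_pow h5
    rw [X_dvd_X] at h6
    exact h01 h6
  obtain ⟨u', hu'⟩ := hdv (p := u0 - b * b₀) (q := u1 - b * b₁) (by
    linear_combination h01' + b * hbb)
  have hat : a * t01 = X i0 ^ N * v1 - X i1 ^ N * v0 := by
    apply mul_left_cancel₀ hb
    linear_combination -a * h01' + X i1 ^ N * e0 - X i0 ^ N * e1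
  obtain ⟨v', hv'⟩ := hdv (p := a * b₀ + v0) (q := v1 + a * b₁) (by
    linear_combination hat - a * hbb)
  rw [Ideal.mem_span_pair]
  refine ⟨u', v', ?_⟩
  have hX : (X i0 : MvPolynomial σ ℂ) ^ N ≠ 0 := pow_ne_zero _ (X_ne_zero _)
  apply mul_left_cancel₀ hX
  linear_combination e0 - a * hu' - b * hv'

include Z in
/-- if the bundle splits, the zero scheme is a complete intersection -/
theorem ZS.ci (hn : 2 ≤ n) (h : E.Splits) : ∃ a b : MvPolynomial (Fin (n + 1)) ℂ,
    (∃ d, a.IsHomogeneous d) ∧ (∃ d, b.IsHomogeneous d) ∧ I = Ideal.span {a, b} := by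
  classical
  obtain ⟨W⟩ := exists_wedge (by omega : 1 ≤ n) (triv E)
  obtain ⟨p, q, G₁, G₂, hG₁', hG₂', hind⟩ := h
  have hG₁ := sec_of_isSection hG₁'
  have hG₂ := sec_of_isSection hG₂'
  have hw : ∀ x : Fin (n + 1) → ℂ, x ≠ 0 → eval x (W.wd G₁ G₂) ≠ 0 := fun x hx =>
    (W.ind x hx G₁ G₂ hG₁.ker hG₂.ker).2 (hind x hx)
  set a := W.wd s G₁ with ha
  set b := W.wd s G₂ with hb
  have haI : a ∈ I := Z.f_mem W hG₁.ker
  have hbI : b ∈ I := Z.f_mem W hG₂.ker
  obtain ⟨x0, hx0, hne⟩ := Z.ne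
  obtain ⟨i, j, hij⟩ := Z.exists_minor W hG₁.ker hG₂.ker hx0 hne (hw x0 hne)
  have ha0 : a ≠ 0 := by
    intro h
    apply hij
    rw [← ha, h]
    unfold Lam
    rw [map_zero, map_zero, zero_mul, zero_mul, sub_zero, map_zero]
  have hb0 : b ≠ 0 := by
    intro h
    apply hij
    rw [← hb, h]
    unfold Lam
    rw [map_zero, map_zero, mul_zero, mul_zero, sub_zero, map_zero]
  have hrp : IsRelPrime b a := by
    refine WfDvdMonoid.isRelPrime_of_no_irreducible_factors (fun h => hb0 h.1) ?_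
    intro π hπ hπb hπa
    have hπp : Prime π := UniqueFactorizationMonoid.irreducible_iff_prime.1 hπ
    obtain ⟨v, hv, hv0⟩ := no_isolated_prime (by omega : 2 ≤ n + 1) π hπp
    obtain ⟨a', ha'⟩ := hπa
    obtain ⟨b', hb'⟩ := hπb
    have hav : eval v a = 0 := by rw [ha', map_mul, hv0, zero_mul]
    have hbv : eval v b = 0 := by rw [hb', map_mul, hv0, zero_mul]
    have hvc : v ∈ cone I := by
      apply Z.mem_cone hv
      funext k
      show eval v (s k) = 0
      have h1 := congrArg (eval v) (W.three s G₁ G₂ Z.sec.ker hG₁.ker hG₂.ker k)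
      rw [← ha, ← hb, map_add, map_sub, map_mul, map_mul, map_mul, hav, hbv, zero_mul, zero_mul,
        sub_zero, add_zero, map_zero] at h1
      exact (mul_eq_zero.1 h1).resolve_left (hw v hv)
    obtain ⟨i, j, hij⟩ := Z.exists_minor W hG₁.ker hG₂.ker hvc hv (hw v hv)
    apply hij
    rw [← ha, ← hb, eval_Lam, ha', hb', mul_comm π a', mul_comm π b', grad_mul_of_zero hv0,
      grad_mul_of_zero hv0, grad_mul_of_zero hv0, grad_mul_of_zero hv0]
    ring
  have hhom : ∀ {p : MvPolynomial (Fin (n + 1)) ℂ} {d : ℤ}, HomZ p d →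
      ∃ k, p.IsHomogeneous k := by
    intro p d h
    rcases h with rfl | ⟨k, -, hk⟩
    · exact ⟨0, isHomogeneous_zero _ _ _⟩
    · exact ⟨k, hk⟩
  refine ⟨a, b, hhom (wd_homZ W Z.sec hG₁), hhom (wd_homZ W Z.sec hG₂), ?_⟩
  apply le_antisymm
  · intro F hF
    -- the ideal of denominators
    let K0 : Ideal (MvPolynomial (Fin (n + 1)) ℂ) := Ideal.span {a, b}
    let J : Ideal (MvPolynomial (Fin (n + 1)) ℂ) :=
      { carrier := {h | h * F ∈ K0}
        add_mem' := by
          intro u v hu hv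
          show (u + v) * F ∈ K0
          rw [add_mul]
          exact Ideal.add_mem _ hu hv
        zero_mem' := by
          show 0 * F ∈ K0
          rw [zero_mul]
          exact Ideal.zero_mem _
        smul_mem' := by
          intro g u hu
          show (g • u) * F ∈ K0
          rw [smul_eq_mul, mul_assoc]
          exact Ideal.mul_mem_left _ _ hu }
    have hzero : ∀ x ∈ zeroLocus ℂ J, x = 0 := by
      intro x hx
      by_contra hx0
      obtain ⟨h, A, B, hh, he⟩ := Z.locgen W hG₁.ker hG₂.ker hx0 (hw x hx0) hF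
      apply hh
      have h1 : h ∈ J := by
        show h * F ∈ Ideal.span {a, b}
        rw [he, Ideal.mem_span_pair]
        exact ⟨A, B, rfl⟩
      have h2 := hx h h1
      simpa [MvPolynomial.aeval_eq_eval] using h2
    have hrad : ∀ i : Fin (n + 1), ∃ N : ℕ, X i ^ N ∈ J := by
      intro i
      have h1 : (X i : MvPolynomial (Fin (n + 1)) ℂ) ∈ J.radical := by
        rw [← vanishingIdeal_zeroLocus_eq_radical (K := ℂ) J, mem_vanishingIdeal_iff]
        intro x hx
        rw [hzero x hx]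
        simp
      exact h1
    choose Nf hNf using hrad
    have hXN : ∀ i, (X i : MvPolynomial (Fin (n + 1)) ℂ) ^ (∑ i, Nf i) * F ∈
        Ideal.span {a, b} := fun i =>
      J.pow_mem_of_pow_mem (hNf i) (Finset.single_le_sum (f := Nf) (fun _ _ => Nat.zero_le _)
        (Finset.mem_univ i))
    exact sat_two hrp hb0 (⟨0, by omega⟩ : Fin (n + 1)) ⟨1, by omega⟩ ⟨2, by omega⟩ (by simp)
      (by simp) (by simp) _ (hXN _) (hXN _) (hXN _)
  · rw [Ideal.span_le]
    rintro F (rfl | hF)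
    · exact haI
    · rw [hF]
      exact hbI

include Z in
/-- the origin is on the cone -/
theorem ZS.zero_mem : (0 : Fin (n + 1) → ℂ) ∈ cone I := by
  intro F hF
  obtain ⟨y, hy, hy0⟩ := Z.ne
  -- by continuity along the line through `y`
  have h1 : ph y F = 0 := by
    apply Polynomial.eq_of_infinite_eval_eq
    refine Set.Infinite.mono (s := {0}ᶜ) ?_ (Set.finite_singleton (0 : ℂ)).infinite_compl
    intro t ht
    have ht' : t ≠ 0 := ht
    show Polynomial.eval t _ = Polynomial.eval t _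
    rw [eval_ph, Polynomial.eval_zero]
    exact Z.cone_smul hy ht' hy0 F hF
  have h2 := eval_ph y F 0
  rw [h1, Polynomial.eval_zero, zero_smul] at h2
  exact h2.symm

/-- the eigenspaces which can be used -/
def Good (I : Ideal (MvPolynomial (Fin (n + 1)) ℂ))
    (T : (Fin (n + 1) → ℂ) →ₗ[ℂ] (Fin (n + 1) → ℂ)) (l : ℂ) : Prop :=
  3 ≤ Module.finrank ℂ (LinearMap.ker (T - l • LinearMap.id)) ∧
    ((∃ x, T x = l • x ∧ x ∉ cone I) ∨ ∀ v, T (T v) = l ^ 2 • v)

theorem Good.ne {l : ℂ} (h : Good I T l) (hT : Function.Injective T) : l ≠ 0 := by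
  rintro rfl
  have h1 := h.1
  have h2 : LinearMap.ker (T - (0 : ℂ) • LinearMap.id) = ⊥ := by
    rw [zero_smul, sub_zero]
    exact LinearMap.ker_eq_bot.2 hT
  rw [h2, finrank_bot] at h1
  omega

include Z in
theorem ZS.splits_of_good (hT : Function.Injective T) (hst : ∀ F ∈ I, lsub T F ∈ I) {l : ℂ}
    (h : Good I T l) {μ : ℂ} (hμ : IsMu W s I T μ) (hne : μ ≠ l ^ W.κ.1) : E.Splits := by
  have hl := h.ne hT
  obtain ⟨m, S, hm, hmn, hSi, hTS, hr⟩ := exists_S l h.1
  refine Z.splits_of W hst S hl hTS hSi hm hμ hne ?_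
  rcases h.2 with ⟨x, hx, hxc⟩ | hinv
  · by_contra hc
    push Not at hc
    apply hxc
    by_cases hx0 : x = 0
    · rw [hx0]
      exact Z.zero_mem
    · apply Z.mem_cone hx0
      obtain ⟨y, rfl⟩ := hr x hx
      funext j
      show eval (S y) (s j) = 0
      rw [← eval_lsub, hc, map_zero]
  · exact Z.ne_zero_of_inv W S hl hTS hSi hμ hne hinv hr

/-- the main theorem -/
theorem main (Z : ZS E s I) (hT : Function.Injective T) (hst : ∀ F ∈ I, lsub T F ∈ I)
    {P Q : Fin (n + 1) → ℂ} (hPQ : LinearIndependent ℂ ![P, Q]) {p q : ℤ}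
    (hs : E.SplitsOn P Q p q)
    (h : (∃ l m, Good I T l ∧ Good I T m ∧ (l / m) ^ (p + q) ≠ 1) ∨
      ∃ l, Good I T l ∧ ∃ x ∈ cone I, x ≠ 0 ∧ ∃ r : ℂ, T x = r • x ∧ ∃ F₁ ∈ I, ∃ F₂ ∈ I,
        (∃ i j, eval x (Lam F₁ F₂ i j) ≠ 0) ∧ ∃ a b : ℂ,
        (∀ i, ∑ k, T (Pi.single i 1) k * grad F₁ x k = a * grad F₁ x i) ∧
        (∀ i, ∑ k, T (Pi.single i 1) k * grad F₂ x k = b * grad F₂ x i) ∧
        a * b * r ^ (p + q - 2) ≠ l ^ (p + q)) :
    2 ≤ n ∧ E.Splits := by
  classical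
  have hn : ∀ {l : ℂ}, Good I T l → 2 ≤ n := by
    intro l hl
    have h1 := Submodule.finrank_le (LinearMap.ker (T - l • LinearMap.id))
    rw [Module.finrank_fintype_fun_eq_card, Fintype.card_fin] at h1
    have h2 := hl.1
    omega
  have hn2 : 2 ≤ n := by
    rcases h with ⟨l, m, hl, -, -⟩ | ⟨l, hl, -⟩
    · exact hn hl
    · exact hn hl
  refine ⟨hn2, ?_⟩
  obtain ⟨W⟩ := exists_wedge (by omega : 1 ≤ n) (triv E)
  have hκ := kappa_of_line W hPQ hs
  obtain ⟨μ, hμ⟩ := Z.eps_const W hT hst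
  rcases h with ⟨l, m, hl, hm, hne⟩ | ⟨l, hl, x, hx, hx0, r, hTx, F₁, h₁, F₂, h₂, ⟨i, j, hL⟩, a, b,
    ha, hb, hab⟩
  · have hl0 := hl.ne hT
    have hm0 := hm.ne hT
    have hor : μ ≠ l ^ W.κ.1 ∨ μ ≠ m ^ W.κ.1 := by
      by_contra hc
      push Not at hc
      apply hne
      rw [← hκ, div_zpow, ← hc.1, ← hc.2, div_self]
      rw [hc.1]
      exact zpow_ne_zero _ hl0
    rcases hor with h1 | h1
    · exact Z.splits_of_good W hT hst hl hμ h1
    · exact Z.splits_of_good W hT hst hm hμ h1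
  · have hr0 : r ≠ 0 := by
      rintro rfl
      rw [zero_smul] at hTx
      exact hx0 (hT (by rw [hTx, map_zero]))
    have h3 := Z.mu_eq W hμ hx hx0 hr0 hTx h₁ h₂ hL ha hb
    refine Z.splits_of_good W hT hst hl hμ ?_
    rw [← h3, hκ]
    exact hab

omit E in
/-- gradients of generators -/
theorem indep_of_span {F : Fin 2 → MvPolynomial (Fin (n + 1)) ℂ}
    (hI : I = Ideal.span (Set.range F)) {x : Fin (n + 1) → ℂ} (hx : x ∈ cone I)
    (h2 : Module.finrank ℂ (conormal I x) = 2) :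
    LinearIndependent ℂ (fun i => grad (F i) x) := by
  rw [linearIndependent_iff_card_eq_finrank_span, Fintype.card_fin]
  have hle : conormal I x ≤ Submodule.span ℂ (Set.range fun i => grad (F i) x) := by
    unfold conormal
    rw [Submodule.span_le]
    rintro _ ⟨G, hG, rfl⟩
    rw [hI, Ideal.mem_span_range_iff_exists_fun] at hG
    obtain ⟨c, rfl⟩ := hG
    have hz : ∀ i, eval x (F i) = 0 := fun i =>
      hx _ (by rw [hI]; exact Ideal.subset_span ⟨i, rfl⟩)
    have h1 : grad (∑ i, c i * F i) x = ∑ i, eval x (c i) • grad (F i) x := by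
      funext k
      rw [Fin.sum_univ_two, Fin.sum_univ_two, grad_add, grad_mul_of_zero (hz 0),
        grad_mul_of_zero (hz 1)]
      rfl
    rw [h1]
    exact Submodule.sum_mem _ fun i _ => Submodule.smul_mem _ _ (Submodule.subset_span ⟨i, rfl⟩)
  apply le_antisymm
  · exact le_trans (le_of_eq h2.symm) (Submodule.finrank_mono hle)
  · have := finrank_range_le_card (R := ℂ) (fun i => grad (F i) x)
    rwa [Fintype.card_fin] at this

theorem exists_minor_of_indep {N : ℕ} {v w : Fin N → ℂ} (h : LinearIndependent ℂ ![v, w]) :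
    ∃ i j, v i * w j - v j * w i ≠ 0 := by
  by_contra hc
  push Not at hc
  have hv : v ≠ 0 := h.ne_zero 0
  obtain ⟨k, hk⟩ : ∃ k, v k ≠ 0 := by
    by_contra hcc
    push Not at hcc
    exact hv (funext hcc)
  rw [LinearIndependent.pair_iff] at h
  have h1 := h (w k) (-v k) (by
    funext i
    show w k * v i + -v k * w i = 0
    linear_combination hc i k)
  exact hk (neg_eq_zero.1 h1.2)

end Pool.Agent.W467.FX
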