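import Pool.Agent.W467.FX.A

/-!
# A linear automorphism acting on the determinant of the conormal bundle (helper467)
-/

set_option autoImplicit false
set_option maxHeartbeats 400000

open MvPolynomial H960VB H938TB Pool.Agent.W615 Pool.Agent.W467.FO

namespace Pool.Agent.W467.FX

/-- the chain rule for a linear substitution -/
theorem pderiv_lsub {m n : ℕ} (T : (Fin (m + 1) → ℂ) →ₗ[ℂ] (Fin (n + 1) → ℂ)) (i : Fin (m + 1))
    (p : MvPolynomial (Fin (n + 1)) ℂ) :
    pderiv i (lsub T p) = ∑ k, C (T (Pi.single i 1) k) * lsub T (pderiv k p) := by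
  classical
  have hX : ∀ j, pderiv i (lsub T (X j)) = C (T (Pi.single i 1) j) := by
    intro j
    rw [lsub, aeval_X, map_sum, Finset.sum_eq_single i]
    · rw [Derivation.leibniz, pderiv_C, pderiv_X_self, smul_zero, add_zero, smul_eq_mul, mul_one]
    · intro t _ ht
      rw [Derivation.leibniz, pderiv_C, pderiv_X_of_ne ht, smul_zero, smul_zero, add_zero]
    · intro h
      exact absurd (Finset.mem_univ _) h
  induction p using MvPolynomial.induction_on with
  | C a =>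
    have h1 : lsub T (C a) = C a := (lsub T).commutes a
    rw [h1, pderiv_C]
    symm
    refine Finset.sum_eq_zero fun k _ => ?_
    rw [pderiv_C, map_zero, mul_zero]
  | add p q hp hq =>
    rw [map_add, map_add, hp, hq, ← Finset.sum_add_distrib]
    refine Finset.sum_congr rfl fun k _ => ?_
    rw [map_add, map_add, mul_add]
  | mul_X p j hp =>
    rw [map_mul (lsub T), Derivation.leibniz, hp, hX, smul_eq_mul, smul_eq_mul]
    have h1 : ∀ k, C (T (Pi.single i 1) k) * lsub T (pderiv k (p * X j)) =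
        (if k = j then lsub T p * C (T (Pi.single i 1) k) else 0) +
        lsub T (X j) * (C (T (Pi.single i 1) k) * lsub T (pderiv k p)) := by
      intro k
      rw [Derivation.leibniz, smul_eq_mul, smul_eq_mul, map_add, map_mul, map_mul]
      by_cases h : k = j
      · subst h
        rw [pderiv_X_self, map_one, if_pos rfl]
        ring
      · rw [pderiv_X_of_ne (Ne.symm h), map_zero, if_neg h]
        ring
    simp_rw [h1]
    rw [Finset.sum_add_distrib, Finset.sum_ite_eq', if_pos (Finset.mem_univ _), ← Finset.mul_sum]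

theorem grad_lsub {m n : ℕ} (T : (Fin (m + 1) → ℂ) →ₗ[ℂ] (Fin (n + 1) → ℂ))
    (p : MvPolynomial (Fin (n + 1)) ℂ) (x : Fin (m + 1) → ℂ) (i : Fin (m + 1)) :
    eval x (pderiv i (lsub T p)) = ∑ k, T (Pi.single i 1) k * grad p (T x) k := by
  rw [pderiv_lsub, map_sum]
  refine Finset.sum_congr rfl fun k _ => ?_
  rw [map_mul, eval_C, eval_lsub]
  rfl

variable {n : ℕ}

/-- the minors of the gradients after a linear substitution -/
theorem Lam_lsub (T : (Fin (n + 1) → ℂ) →ₗ[ℂ] (Fin (n + 1) → ℂ))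
    (F G : MvPolynomial (Fin (n + 1)) ℂ) (x : Fin (n + 1) → ℂ) (i j : Fin (n + 1)) :
    eval x (Lam (lsub T F) (lsub T G) i j) =
      ∑ k, ∑ l, T (Pi.single i 1) k * T (Pi.single j 1) l * eval (T x) (Lam F G k l) := by
  have h1 : ∀ k l, T (Pi.single i 1) k * T (Pi.single j 1) l * eval (T x) (Lam F G k l) =
      (T (Pi.single i 1) k * grad F (T x) k) * (T (Pi.single j 1) l * grad G (T x) l) -
      (T (Pi.single i 1) k * grad G (T x) k) * (T (Pi.single j 1) l * grad F (T x) l) := by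
    intro k l
    rw [eval_Lam]
    ring
  simp_rw [h1, Finset.sum_sub_distrib, ← Finset.mul_sum, ← Finset.sum_mul]
  unfold Lam
  rw [map_sub, map_mul, map_mul, grad_lsub, grad_lsub, grad_lsub, grad_lsub]
  ring

theorem homZ_mul {σ : Type*} {p q : MvPolynomial σ ℂ} {d e : ℤ} (hp : HomZ p d) (hq : HomZ q e) :
    HomZ (p * q) (d + e) := by
  rcases hp with rfl | ⟨k, hk, hp⟩
  · left; rw [zero_mul]
  · rcases hq with rfl | ⟨l, hl, hq⟩
    · left; rw [mul_zero]
    · right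
      exact ⟨k + l, by push_cast; rw [hk, hl], hp.mul hq⟩

theorem homZ_pderiv {p : MvPolynomial (Fin (n + 1)) ℂ} {d : ℤ} (hp : HomZ p d)
    (i : Fin (n + 1)) : HomZ (pderiv i p) (d - 1) := by
  rcases hp with rfl | ⟨k, hk, hp⟩
  · left; rw [map_zero]
  · rcases Nat.eq_zero_or_pos k with h0 | h0
    · left
      subst h0
      have h1 := (totalDegree_zero_iff_isHomogeneous (p := p)).2 hp
      have h2 := totalDegree_eq_zero_iff_eq_C.1 h1
      rw [h2, pderiv_C]
    · right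
      exact ⟨k - 1, by push_cast [Nat.cast_sub h0]; rw [hk], hp.pderiv⟩

theorem homZ_Lam {F G : MvPolynomial (Fin (n + 1)) ℂ} {d e : ℤ} (hF : HomZ F d) (hG : HomZ G e)
    (i j : Fin (n + 1)) : HomZ (Lam F G i j) (d - 1 + (e - 1)) :=
  homZ_sub (homZ_mul (homZ_pderiv hF i) (homZ_pderiv hG j))
    (homZ_mul (homZ_pderiv hF j) (homZ_pderiv hG i))

theorem homZ_cast {σ : Type*} {p : MvPolynomial σ ℂ} {d e : ℤ} (h : HomZ p d) (he : d = e) :
    HomZ p e := he ▸ h

variable {E : Bundle2 n} {s : Vec E.a n} {I : Ideal (MvPolynomial (Fin (n + 1)) ℂ)}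
variable (Z : ZS E s I) (W : Wedge (triv E)) (T : (Fin (n + 1) → ℂ) →ₗ[ℂ] (Fin (n + 1) → ℂ))

/-- the numerator -/
noncomputable def Nn (W : Wedge (triv E)) (s : Vec E.a n)
    (T : (Fin (n + 1) → ℂ) →ₗ[ℂ] (Fin (n + 1) → ℂ))
    (G H G' H' : Vec E.a n) (i j : Fin (n + 1)) : MvPolynomial (Fin (n + 1)) ℂ :=
  Lam (lsub T (W.wd s G)) (lsub T (W.wd s H)) i j * W.wd G' H'

/-- the denominator -/
noncomputable def Dd (W : Wedge (triv E)) (s : Vec E.a n)
    (T : (Fin (n + 1) → ℂ) →ₗ[ℂ] (Fin (n + 1) → ℂ))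
    (G H G' H' : Vec E.a n) (i j : Fin (n + 1)) : MvPolynomial (Fin (n + 1)) ℂ :=
  lsub T (W.wd G H) * Lam (W.wd s G') (W.wd s H') i j

theorem eval_Nn (G H G' H' : Vec E.a n) (i j : Fin (n + 1)) (x : Fin (n + 1) → ℂ) :
    eval x (Nn W s T G H G' H' i j) =
      eval x (Lam (lsub T (W.wd s G)) (lsub T (W.wd s H)) i j) * eval x (W.wd G' H') := by
  unfold Nn
  rw [map_mul]

theorem eval_Dd (G H G' H' : Vec E.a n) (i j : Fin (n + 1)) (x : Fin (n + 1) → ℂ) :
    eval x (Dd W s T G H G' H' i j) =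
      eval (T x) (W.wd G H) * eval x (Lam (W.wd s G') (W.wd s H') i j) := by
  unfold Dd
  rw [map_mul, eval_lsub]

variable {T}

include Z in
theorem ZS.hom_Nn {a b a' b' : ℤ} {G H G' H' : Vec E.a n} (hG : Sec E a G) (hH : Sec E b H)
    (hG' : Sec E a' G') (hH' : Sec E b' H') (i j : Fin (n + 1)) :
    HomZ (Nn W s T G H G' H' i j) (a + b + a' + b' + 3 * W.κ.1 - 2) := by
  have h1 := homZ_Lam (homZ_lsub T (wd_homZ W Z.sec hG)) (homZ_lsub T (wd_homZ W Z.sec hH)) i j
  have h2 := wd_homZ W hG' hH'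
  exact homZ_cast (homZ_mul h1 h2) (by ring)

include Z in
theorem ZS.hom_Dd {a b a' b' : ℤ} {G H G' H' : Vec E.a n} (hG : Sec E a G) (hH : Sec E b H)
    (hG' : Sec E a' G') (hH' : Sec E b' H') (i j : Fin (n + 1)) :
    HomZ (Dd W s T G H G' H' i j) (a + b + a' + b' + 3 * W.κ.1 - 2) := by
  have h1 := homZ_Lam (wd_homZ W Z.sec hG') (wd_homZ W Z.sec hH') i j
  have h2 := wd_homZ W hG hH
  exact homZ_cast (homZ_mul (homZ_lsub T h2) h1) (by ring)

variable (hT : Function.Injective T) (hst : ∀ F ∈ I, lsub T F ∈ I)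

include hst in
theorem T_cone {x : Fin (n + 1) → ℂ} (hx : x ∈ cone I) : T x ∈ cone I := by
  intro F hF
  rw [← eval_lsub]
  exact hx _ (hst F hF)

include Z hT hst in
/-- the ratio at a point -/
theorem ZS.exists_eps {x : Fin (n + 1) → ℂ} (hx : x ∈ cone I) (hx0 : x ≠ 0) :
    ∃ e : ℂ, ∀ G H G' H' : Vec E.a n, Ker E G → Ker E H → Ker E G' → Ker E H' →
      ∀ i j, eval x (Nn W s T G H G' H' i j) = e * eval x (Dd W s T G H G' H' i j) := by
  have hx1 : T x ≠ 0 := fun h => hx0 (hT (by rw [h, map_zero]))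
  have hxc : T x ∈ cone I := T_cone hst hx
  obtain ⟨_, _, G0, H0, hG0, hH0, w0⟩ := exists_sec_ne W x hx0
  obtain ⟨_, _, G1, H1, hG1, hH1, w1⟩ := exists_sec_ne W (T x) hx1
  obtain ⟨a, b, hab⟩ := Z.grad_gen W hG0.ker hH0.ker hx hx0 w0 (hst _ (Z.f_mem W hG1.ker))
  obtain ⟨a', b', hab'⟩ := Z.grad_gen W hG0.ker hH0.ker hx hx0 w0 (hst _ (Z.f_mem W hH1.ker))
  have hθ : ∀ i j, eval x (Lam (lsub T (W.wd s G1)) (lsub T (W.wd s H1)) i j) =
      (a * b' - a' * b) * eval x (Lam (W.wd s G0) (W.wd s H0) i j) := by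
    intro i j
    rw [eval_Lam, hab, hab, hab', hab', eval_Lam]
    ring
  refine ⟨(a * b' - a' * b) * eval x (W.wd G0 H0) / eval (T x) (W.wd G1 H1), ?_⟩
  intro G H G' H' hG hH hG' hH' i j
  rw [eval_Nn, eval_Dd]
  have c1 : eval x (Lam (lsub T (W.wd s G)) (lsub T (W.wd s H)) i j) * eval (T x) (W.wd G1 H1) =
      eval x (Lam (lsub T (W.wd s G1)) (lsub T (W.wd s H1)) i j) * eval (T x) (W.wd G H) := by
    rw [Lam_lsub, Lam_lsub, Finset.sum_mul, Finset.sum_mul]
    refine Finset.sum_congr rfl fun k _ => ?_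
    rw [Finset.sum_mul, Finset.sum_mul]
    refine Finset.sum_congr rfl fun l _ => ?_
    have c := Z.cross W hG1.ker hH1.ker hG hH hxc k l
    linear_combination (T (Pi.single i 1) k * T (Pi.single j 1) l) * c
  have c2 := Z.cross W hG0.ker hH0.ker hG' hH' hx i j
  have c3 := hθ i j
  rw [div_mul_eq_mul_div, eq_div_iff w1]
  apply mul_right_cancel₀ w0
  linear_combination (eval x (W.wd G' H') * eval x (W.wd G0 H0)) * c1
    + (eval (T x) (W.wd G H) * eval x (W.wd G' H') * eval x (W.wd G0 H0)) * c3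
    - ((a * b' - a' * b) * eval (T x) (W.wd G H) * eval x (W.wd G0 H0)) * c2

omit hst in
include Z hT in
/-- a nonzero denominator -/
theorem ZS.exists_Dd {x : Fin (n + 1) → ℂ} (hx : x ∈ cone I) (hx0 : x ≠ 0) :
    ∃ (a b a' b' : ℤ) (G H G' H' : Vec E.a n) (i j : Fin (n + 1)), Sec E a G ∧ Sec E b H ∧
      Sec E a' G' ∧ Sec E b' H' ∧ eval x (Dd W s T G H G' H' i j) ≠ 0 := by
  have hx1 : T x ≠ 0 := fun h => hx0 (hT (by rw [h, map_zero]))
  obtain ⟨a', b', G0, H0, hG0, hH0, w0⟩ := exists_sec_ne W x hx0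
  obtain ⟨a, b, G1, H1, hG1, hH1, w1⟩ := exists_sec_ne W (T x) hx1
  obtain ⟨i, j, hij⟩ := Z.exists_minor W hG0.ker hH0.ker hx hx0 w0
  refine ⟨a, b, a', b', G1, H1, G0, H0, i, j, hG1, hH1, hG0, hH0, ?_⟩
  rw [eval_Dd]
  exact mul_ne_zero w1 hij

end Pool.Agent.W467.FX
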