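import Pool.Agent.W467.FG.C

/-!
# The section along an eigenspace (helper467)
-/

set_option autoImplicit false
set_option maxHeartbeats 400000

open MvPolynomial H960VB H938TB Pool.Agent.W615 Pool.Agent.W467.FO

namespace Pool.Agent.W467.FX

variable {n : ℕ} {E : Bundle2 n} {s : Vec E.a n} {I : Ideal (MvPolynomial (Fin (n + 1)) ℂ)}
variable (Z : ZS E s I) (W : Wedge (triv E))

include Z W in
/-- the section in terms of two elements of the ideal with independent gradients -/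
theorem ZS.cramer {x : Fin (n + 1) → ℂ} (hx : x ∈ cone I) (hx0 : x ≠ 0)
    {F₁ F₂ : MvPolynomial (Fin (n + 1)) ℂ} (h₁ : F₁ ∈ I) (h₂ : F₂ ∈ I) {i j : Fin (n + 1)}
    (hL : eval x (Lam F₁ F₂ i j) ≠ 0) : ∃ D : MvPolynomial (Fin (n + 1)) ℂ, eval x D ≠ 0 ∧
      ∀ k, ∃ c₁ c₂ : MvPolynomial (Fin (n + 1)) ℂ, D * s k = c₁ * F₁ + c₂ * F₂ := by
  obtain ⟨_, _, G, H, hG', hH', w⟩ := exists_sec_ne W x hx0
  have hG := hG'.ker
  have hH := hH'.ker
  obtain ⟨u₁, A₁, B₁, hu₁, e₁⟩ := Z.locgen W hG hH hx0 w h₁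
  obtain ⟨u₂, A₂, B₂, hu₂, e₂⟩ := Z.locgen W hG hH hx0 w h₂
  have g1 : ∀ k, eval x u₁ * grad F₁ x k =
      eval x A₁ * grad (W.wd s G) x k + eval x B₁ * grad (W.wd s H) x k := by
    intro k
    have h1 := congrArg (fun p => grad p x k) e₁
    simp only [grad_add] at h1
    rwa [grad_mul_of_zero (hx _ h₁), grad_mul_of_zero (hx _ (Z.f_mem W hG)),
      grad_mul_of_zero (hx _ (Z.f_mem W hH))] at h1
  have g2 : ∀ k, eval x u₂ * grad F₂ x k =
      eval x A₂ * grad (W.wd s G) x k + eval x B₂ * grad (W.wd s H) x k := by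
    intro k
    have h1 := congrArg (fun p => grad p x k) e₂
    simp only [grad_add] at h1
    rwa [grad_mul_of_zero (hx _ h₂), grad_mul_of_zero (hx _ (Z.f_mem W hG)),
      grad_mul_of_zero (hx _ (Z.f_mem W hH))] at h1
  refine ⟨(A₁ * B₂ - A₂ * B₁) * W.wd G H, ?_, fun k => ?_⟩
  · rw [map_mul]
    refine mul_ne_zero ?_ w
    intro h0
    apply mul_ne_zero (mul_ne_zero hu₁ hu₂) hL
    rw [eval_Lam]
    simp only [map_sub, map_mul] at h0
    have a1 := g1 i
    have a2 := g1 j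
    have b1 := g2 i
    have b2 := g2 j
    linear_combination (eval x u₂ * grad F₂ x j) * a1
      + (eval x A₁ * grad (W.wd s G) x i + eval x B₁ * grad (W.wd s H) x i) * b2
      - (eval x u₂ * grad F₂ x i) * a2
      - (eval x A₁ * grad (W.wd s G) x j + eval x B₁ * grad (W.wd s H) x j) * b1
      + (grad (W.wd s G) x i * grad (W.wd s H) x j - grad (W.wd s G) x j *
        grad (W.wd s H) x i) * h0
  · refine ⟨(-A₂ * G k - B₂ * H k) * u₁, (A₁ * G k + B₁ * H k) * u₂, ?_⟩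
    have h2 := W.three s G H Z.sec.ker hG hH k
    linear_combination (A₁ * B₂ - A₂ * B₁) * h2 + (A₂ * G k + B₂ * H k) * e₁
      - (A₁ * G k + B₁ * H k) * e₂

/-- a zero of a polynomial lies on a prime factor -/
theorem exists_prime_zero {m : ℕ} (z : Fin (m + 1) → ℂ) : ∀ q : MvPolynomial (Fin (m + 1)) ℂ,
    q ≠ 0 → eval z q = 0 → ∃ π, Prime π ∧ π ∣ q ∧ eval z π = 0 := by
  intro q
  induction q using UniqueFactorizationMonoid.induction_on_prime with
  | h₁ => exact fun h => absurd rfl h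
  | h₂ q hq =>
    intro _ h
    exact absurd h (hq.map (eval z)).ne_zero
  | h₃ a π ha hπ ih =>
    intro _ h
    rw [map_mul] at h
    rcases mul_eq_zero.1 h with h1 | h1
    · exact ⟨π, hπ, dvd_mul_right _ _, h1⟩
    · obtain ⟨π', a1, a2, a3⟩ := ih ha h1
      exact ⟨π', a1, a2.mul_left _, a3⟩

variable {m : ℕ} (S : (Fin (m + 1) → ℂ) →ₗ[ℂ] (Fin (n + 1) → ℂ)) (hS : Function.Injective S)

include Z W in
/-- the primitive section does not vanish where the ideal is locally principal -/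
theorem ZS.prim_ne (hS : Function.Injective S) {z : Fin (m + 1) → ℂ} (hz : z ≠ 0)
    (hx : S z ∈ cone I)
    {g : MvPolynomial (Fin (m + 1)) ℂ} {s1 : Vec E.a m} (hg : g ≠ 0)
    (hs1 : ∀ i, lsub S (s i) = g * s1 i) (hp : Prm s1) {F₁ F₂ : MvPolynomial (Fin (n + 1)) ℂ}
    (h₁ : F₁ ∈ I) (h₂ : F₂ ∈ I) {i j : Fin (n + 1)} (hL : eval (S z) (Lam F₁ F₂ i j) ≠ 0)
    (hF₂ : lsub S F₂ = 0) : evv s1 z ≠ 0 := by
  intro h0
  have hx0 : S z ≠ 0 := fun h => hz (hS (by rw [h, map_zero]))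
  obtain ⟨D, hD, hD'⟩ := Z.cramer W hx hx0 h₁ h₂ hL
  choose c₁ c₂ hc using hD'
  have hc' : ∀ k, lsub S D * (g * s1 k) = lsub S (c₁ k) * lsub S F₁ := by
    intro k
    have h3 := congrArg (lsub S) (hc k)
    rw [map_mul, map_add, map_mul, map_mul, hF₂, mul_zero, add_zero, hs1] at h3
    exact h3
  have hDz : eval z (lsub S D) ≠ 0 := by rwa [eval_lsub]
  have hD0 : lsub S D ≠ 0 := fun h => hDz (by rw [h, map_zero])
  obtain ⟨k0, hk0⟩ := hp.ne
  have hφ : lsub S F₁ ≠ 0 := by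
    intro h
    have h3 := hc' k0
    rw [h, mul_zero] at h3
    exact mul_ne_zero hD0 (mul_ne_zero hg hk0) h3
  obtain ⟨h, hh, hm⟩ := Z.gen F₁ h₁ (S z) hx0
  rw [Ideal.mem_span_range_iff_exists_fun] at hm
  obtain ⟨c, hcc⟩ := hm
  set q := ∑ i, lsub S (c i) * s1 i with hq
  have hq1 : lsub S h * lsub S F₁ = g * q := by
    rw [← map_mul, ← hcc, map_sum, hq, Finset.mul_sum]
    refine Finset.sum_congr rfl fun i _ => ?_
    rw [map_mul, hs1]
    ring
  have hhz : eval z (lsub S h) ≠ 0 := by rwa [eval_lsub]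
  have hh0 : lsub S h ≠ 0 := fun h' => hhz (by rw [h', map_zero])
  have hq0 : q ≠ 0 := by
    intro h'
    rw [h', mul_zero] at hq1
    exact mul_ne_zero hh0 hφ hq1
  have hqz : eval z q = 0 := by
    rw [hq, map_sum]
    refine Finset.sum_eq_zero fun i _ => ?_
    have h3 : eval z (s1 i) = 0 := congrFun h0 i
    rw [map_mul, h3, mul_zero]
  obtain ⟨π, hπ, hπq, hπz⟩ := exists_prime_zero z q hq0 hqz
  apply hπ.not_isUnit
  apply hp
  intro k
  have h3 : (lsub S h * lsub S D) * s1 k = lsub S (c₁ k) * q := by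
    apply mul_left_cancel₀ hg
    linear_combination (lsub S h) * hc' k + lsub S (c₁ k) * hq1
  have h4 : π ∣ (lsub S h * lsub S D) * s1 k := by
    rw [h3]
    exact hπq.mul_left _
  rcases hπ.dvd_or_dvd h4 with h5 | h5
  · exfalso
    obtain ⟨r, hr⟩ := h5
    have h6 := congrArg (eval z) hr
    rw [map_mul, map_mul, hπz, zero_mul] at h6
    exact mul_ne_zero hhz hDz h6
  · exact h5

end Pool.Agent.W467.FX
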