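import Pool.Agent.W467.FG.D

/-!
# The bundle splits along an eigenspace (helper467)
-/

set_option autoImplicit false
set_option maxHeartbeats 400000

open MvPolynomial H960VB H938TB Pool.Agent.W615 Pool.Agent.W467.FO

namespace Pool.Agent.W467.FX

variable {n : ℕ} {E : Bundle2 n} {s : Vec E.a n} {I : Ideal (MvPolynomial (Fin (n + 1)) ℂ)}
variable (Z : ZS E s I) (W : Wedge (triv E)) {T : (Fin (n + 1) → ℂ) →ₗ[ℂ] (Fin (n + 1) → ℂ)}

/-- the constant is `μ` -/
def IsMu (W : Wedge (triv E)) (s : Vec E.a n) (I : Ideal (MvPolynomial (Fin (n + 1)) ℂ))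
    (T : (Fin (n + 1) → ℂ) →ₗ[ℂ] (Fin (n + 1) → ℂ)) (μ : ℂ) : Prop :=
  ∀ x ∈ cone I, x ≠ 0 → ∀ G H G' H' : Vec E.a n, Ker E G → Ker E H → Ker E G' → Ker E H' →
    ∀ i j, eval x (Nn W s T G H G' H' i j) = μ * eval x (Dd W s T G H G' H' i j)

omit Z in
/-- the constant at a fixed point -/
theorem mu_rel {μ : ℂ} (hμ : IsMu W s I T μ) {x : Fin (n + 1) → ℂ} (hx : x ∈ cone I)
    (hx0 : x ≠ 0) {l : ℂ} (hTx : T x = l • x) {a b : ℤ} {G H : Vec E.a n}
    (hG : Sec E a G) (hH : Sec E b H) (hw : eval x (W.wd G H) ≠ 0) (i j : Fin (n + 1)) :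
    eval x (Lam (lsub T (W.wd s G)) (lsub T (W.wd s H)) i j) =
      μ * l ^ (a + b + W.κ.1) * eval x (Lam (W.wd s G) (W.wd s H) i j) := by
  have h1 := hμ x hx hx0 G H G H hG.ker hH.ker hG.ker hH.ker i j
  rw [eval_Nn, eval_Dd, hTx, eval_smul_homZ (wd_homZ W hG hH)] at h1
  apply mul_right_cancel₀ hw
  rw [h1]
  ring

include Z in
/-- if the gradients are eigenvectors the constant is known -/
theorem ZS.mu_of_grad {μ : ℂ} (hμ : IsMu W s I T μ) {x : Fin (n + 1) → ℂ} (hx : x ∈ cone I)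
    (hx0 : x ≠ 0) {l : ℂ} (hl : l ≠ 0) (hTx : T x = l • x) {a b : ℤ} {G H : Vec E.a n}
    (hG : Sec E a G) (hH : Sec E b H) (hw : eval x (W.wd G H) ≠ 0) {c : ℂ} (hc : c * c = 1)
    (h1 : ∀ i, grad (lsub T (W.wd s G)) x i = c * l ^ (a + W.κ.1) * grad (W.wd s G) x i)
    (h2 : ∀ i, grad (lsub T (W.wd s H)) x i = c * l ^ (b + W.κ.1) * grad (W.wd s H) x i) :
    μ = l ^ W.κ.1 := by
  obtain ⟨i, j, hij⟩ := Z.exists_minor W hG.ker hH.ker hx hx0 hw
  have h3 := mu_rel W hμ hx hx0 hTx hG hH hw i j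
  rw [eval_Lam, h1, h1, h2, h2] at h3
  have h4 : l ^ (a + W.κ.1) * l ^ (b + W.κ.1) = l ^ (a + b + W.κ.1) * l ^ W.κ.1 := by
    rw [← zpow_add₀ hl, ← zpow_add₀ hl]
    congr 1
    ring
  have h5 : l ^ (a + b + W.κ.1) ≠ 0 := zpow_ne_zero _ hl
  apply mul_right_cancel₀ (mul_ne_zero h5 hij)
  rw [← mul_assoc, ← h3]
  have h6 : c * l ^ (a + W.κ.1) * grad (W.wd s G) x i * (c * l ^ (b + W.κ.1) *
      grad (W.wd s H) x j) - c * l ^ (a + W.κ.1) * grad (W.wd s G) x j *
      (c * l ^ (b + W.κ.1) * grad (W.wd s H) x i) =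
      (c * c) * (l ^ (a + W.κ.1) * l ^ (b + W.κ.1)) * eval x (Lam (W.wd s G) (W.wd s H) i j) := by
    rw [eval_Lam]
    ring
  rw [h6, hc, h4]
  ring

variable (hst : ∀ F ∈ I, lsub T F ∈ I)
variable {m : ℕ} (S : (Fin (m + 1) → ℂ) →ₗ[ℂ] (Fin (n + 1) → ℂ)) (hSi : Function.Injective S)
variable {l : ℂ} (hl : l ≠ 0) (hTS : T ∘ₗ S = l • S)

include hTS hl in
theorem sub_vanish {K : MvPolynomial (Fin (n + 1)) ℂ} {N : ℤ} (hK : HomZ K N) :
    lsub S (K - C (l ^ (-N)) * lsub T K) = 0 := by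
  have h1 : lsub S (C (l ^ (-N)) : MvPolynomial (Fin (n + 1)) ℂ) = C (l ^ (-N)) :=
    (lsub S).commutes _
  rw [map_sub, map_mul, h1, lsub_comp, hTS, lsub_smul S l hK, smul_eq_C_mul, ← mul_assoc, ← C_mul,
    ← zpow_add₀ hl, neg_add_cancel, zpow_zero, C_1, one_mul, sub_self]

theorem grad_C_mul (c : ℂ) (K : MvPolynomial (Fin (n + 1)) ℂ) (x : Fin (n + 1) → ℂ)
    (i : Fin (n + 1)) : grad (C c * K) x i = c * grad K x i := by
  unfold grad
  rw [Derivation.leibniz, pderiv_C, smul_zero, add_zero, smul_eq_mul, map_mul, eval_C]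

include Z hst hTS hl hSi in
/-- two elements of the ideal -/
theorem ZS.exists_pair {μ : ℂ} (hμ : IsMu W s I T μ) (hne : μ ≠ l ^ W.κ.1)
    {z : Fin (m + 1) → ℂ} (hz : z ≠ 0) (hx : S z ∈ cone I) :
    ∃ F₁ ∈ I, ∃ F₂ ∈ I, ∃ i j, eval (S z) (Lam F₁ F₂ i j) ≠ 0 ∧ lsub S F₂ = 0 := by
  have hx0 : S z ≠ 0 := fun h => hz (hSi (by rw [h, map_zero]))
  have hTx : T (S z) = l • S z := congrFun (congrArg DFunLike.coe hTS) z
  obtain ⟨a, b, G, H, hG, hH, w⟩ := exists_sec_ne W (S z) hx0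
  obtain ⟨i, j, hij⟩ := Z.exists_minor W hG.ker hH.ker hx hx0 w
  have hfG := Z.f_mem W hG.ker
  have hfH := Z.f_mem W hH.ker
  have key : ∀ {N : ℤ} {K : MvPolynomial (Fin (n + 1)) ℂ}, HomZ K N → K ∈ I →
      (∀ F₁ ∈ I, ∀ F₂ ∈ I, ∀ i j, eval (S z) (Lam F₁ F₂ i j) ≠ 0 → lsub S F₂ ≠ 0) →
      ∀ k, grad (lsub T K) (S z) k = 1 * l ^ N * grad K (S z) k := by
    intro N K hK hKI hc k
    have hv := sub_vanish S hl hTS hK
    have hm : K - C (l ^ (-N)) * lsub T K ∈ I :=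
      I.sub_mem hKI (I.mul_mem_left _ (hst _ hKI))
    have hg : ∀ k, grad (K - C (l ^ (-N)) * lsub T K) (S z) k =
        grad K (S z) k - l ^ (-N) * grad (lsub T K) (S z) k := by
      intro k
      rw [grad_sub, grad_C_mul]
    have h0 : grad (K - C (l ^ (-N)) * lsub T K) (S z) k = 0 := by
      by_contra hk
      have par : ∀ F ∈ I, ∀ i, grad F (S z) i * grad (K - C (l ^ (-N)) * lsub T K) (S z) k =
          grad F (S z) k * grad (K - C (l ^ (-N)) * lsub T K) (S z) i := by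
        intro F hF i
        by_contra h
        refine hc F hF _ hm i k ?_ hv
        rw [eval_Lam]
        intro h'
        apply h
        linear_combination h'
      apply hij
      rw [eval_Lam]
      have p1 := par _ hfG i
      have p2 := par _ hfH j
      have p3 := par _ hfG j
      have p4 := par _ hfH i
      apply mul_right_cancel₀ (mul_ne_zero hk hk)
      linear_combination (grad (W.wd s H) (S z) j *
          grad (K - C (l ^ (-N)) * lsub T K) (S z) k) * p1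
        + (grad (W.wd s G) (S z) k * grad (K - C (l ^ (-N)) * lsub T K) (S z) i) * p2
        - (grad (W.wd s H) (S z) i * grad (K - C (l ^ (-N)) * lsub T K) (S z) k) * p3
        - (grad (W.wd s G) (S z) k * grad (K - C (l ^ (-N)) * lsub T K) (S z) j) * p4
    rw [hg] at h0
    have h1 : l ^ N * l ^ (-N) = 1 := by rw [← zpow_add₀ hl, add_neg_cancel, zpow_zero]
    linear_combination -(l ^ N) * h0 - (grad (lsub T K) (S z) k) * h1
  by_contra hcon
  apply hne
  have hc : ∀ F₁ ∈ I, ∀ F₂ ∈ I, ∀ i j, eval (S z) (Lam F₁ F₂ i j) ≠ 0 → lsub S F₂ ≠ 0 :=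
    fun F₁ h₁ F₂ h₂ i j h hv => hcon ⟨F₁, h₁, F₂, h₂, i, j, h, hv⟩
  exact Z.mu_of_grad W hμ hx hx0 hl hTx hG hH w (c := 1) (by ring)
    (key (homZ_cast (wd_homZ W Z.sec hG) (by ring)) hfG hc)
    (key (homZ_cast (wd_homZ W Z.sec hH) (by ring)) hfH hc)

include Z hst hTS hl in
/-- the bundle splits -/
theorem ZS.splits_of (hSi : Function.Injective S) (hm : 2 ≤ m) {μ : ℂ} (hμ : IsMu W s I T μ)
    (hne : μ ≠ l ^ W.κ.1) (hs0 : ∃ k, lsub S (s k) ≠ 0) : E.Splits := by
  have hsec := rs_sec S hSi Z.sec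
  obtain ⟨δ, g, s1, hg, hg', hs1, hp, hgs⟩ := exists_prm hsec hs0
  have hnz : ∀ z : Fin (m + 1) → ℂ, z ≠ 0 → evv s1 z ≠ 0 := by
    intro z hz h0
    have hx0 : S z ≠ 0 := fun h => hz (hSi (by rw [h, map_zero]))
    have hx : S z ∈ cone I := by
      apply Z.mem_cone hx0
      funext i
      show eval (S z) (s i) = 0
      have h1 : lsub S (s i) = g * s1 i := hgs i
      have h2 : eval z (s1 i) = 0 := congrFun h0 i
      rw [← eval_lsub, h1, map_mul, h2, mul_zero]
    obtain ⟨F₁, hF₁, F₂, hF₂, i, j, hL, hv⟩ := Z.exists_pair W hst S hSi hl hTS hμ hne hz hx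
    exact Z.prim_ne W S hSi hz hx hg hgs hp hF₁ hF₂ hL hv h0
  -- restriction to a plane
  have hle : 3 ≤ m + 1 := by omega
  let c : Fin 3 → Fin (m + 1) := Fin.castLE hle
  have hc : Function.Injective c := Fin.castLE_injective hle
  have hTi : Function.Injective (cInc c) := cInc_injective c hc
  obtain ⟨τ, hτ⟩ : ∃ τ : M, HSec (triv (E.pull S hSi)) τ s1 := ⟨_, hs1⟩
  have hs2 : HSec ((triv (E.pull S hSi)).pull (cInc c) hTi 0 (fun _ _ _ => rfl)) τ
      (fun i => lsub (cInc c) (s1 i)) := hτ.pull (cInc c) hTi 0 (fun _ _ _ => rfl)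
  have h3 : ((E.pull S hSi).pull (cInc c) hTi).Splits := by
    refine splits_of_nowhere_zero hs2 fun x hx h0 => ?_
    apply hnz (cInc c x) (fun h => hx (hTi (by rw [h, map_zero])))
    rw [← evv_lsub]
    exact h0
  have h4 : (E.pull S hSi).Splits :=
    Bundle2.splits_of_pull (m - 2) 2 m (le_refl 2) (by omega) (E.pull S hSi) (cInc c) hTi h3
  have hmn : m ≤ n := by
    have h5 := LinearMap.finrank_le_finrank_of_injective hSi
    rw [Module.finrank_fintype_fun_eq_card, Module.finrank_fintype_fun_eq_card, Fintype.card_fin,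
      Fintype.card_fin] at h5
    omega
  exact Bundle2.splits_of_pull (n - m) m n hm (by omega) E S hSi h4

include Z hTS hl in
/-- the section does not vanish on an eigenspace of an involution -/
theorem ZS.ne_zero_of_inv (hSi : Function.Injective S) {μ : ℂ} (hμ : IsMu W s I T μ)
    (hne : μ ≠ l ^ W.κ.1) (hinv : ∀ v, T (T v) = l ^ 2 • v)
    (hr : ∀ v, T v = l • v → ∃ y, S y = v) :
    ∃ k, lsub S (s k) ≠ 0 := by
  by_contra hc
  push Not at hc
  have hcone : ∀ z : Fin (m + 1) → ℂ, z ≠ 0 → S z ∈ cone I := by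
    intro z hz
    apply Z.mem_cone (fun h => hz (hSi (by rw [h, map_zero])))
    funext i
    show eval (S z) (s i) = 0
    rw [← eval_lsub, hc, map_zero]
  have hF : ∀ F ∈ I, lsub S F = 0 := by
    intro F hF
    by_contra hF0
    have h1 : lsub S F * X 0 = 0 := by
      apply MvPolynomial.funext
      intro z
      rw [map_mul, map_zero]
      by_cases hz : z = 0
      · rw [hz, eval_X, Pi.zero_apply, mul_zero]
      · rw [eval_lsub, hcone z hz F hF, zero_mul]
    rcases mul_eq_zero.1 h1 with h2 | h2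
    · exact hF0 h2
    · exact X_ne_zero _ h2
  set z : Fin (m + 1) → ℂ := fun _ => 1 with hz'
  have hz : z ≠ 0 := fun h => one_ne_zero (α := ℂ) (congrFun h 0)
  have hx := hcone z hz
  have hx0 : S z ≠ 0 := fun h => hz (hSi (by rw [h, map_zero]))
  have hTx : T (S z) = l • S z := congrFun (congrArg DFunLike.coe hTS) z
  obtain ⟨a, b, G, H, hG, hH, w⟩ := exists_sec_ne W (S z) hx0
  -- derivatives along the eigenspace vanish
  have hdir : ∀ F ∈ I, ∀ y : Fin (m + 1) → ℂ, ∑ k, S y k * grad F (S z) k = 0 := by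
    intro F hFI y
    have h1 : ∀ t, ∑ k, S (Pi.single t 1) k * grad F (S z) k = 0 := by
      intro t
      rw [← grad_lsub, hF F hFI, map_zero, map_zero]
    have h2 : y = ∑ t, y t • (Pi.single t 1 : Fin (m + 1) → ℂ) := by
      ext k
      simp [Finset.sum_apply, Pi.single_apply]
    have h3 : ∀ k, S y k = ∑ t, y t * S (Pi.single t 1) k := by
      intro k
      conv_lhs => rw [h2, map_sum, Finset.sum_apply]
      refine Finset.sum_congr rfl fun t _ => ?_
      rw [map_smul, Pi.smul_apply, smul_eq_mul]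
    simp_rw [h3, Finset.sum_mul]
    rw [Finset.sum_comm]
    refine Finset.sum_eq_zero fun t _ => ?_
    have h4 : ∑ k, y t * S (Pi.single t 1) k * grad F (S z) k =
        y t * ∑ k, S (Pi.single t 1) k * grad F (S z) k := by
      rw [Finset.mul_sum]
      refine Finset.sum_congr rfl fun k _ => ?_
      ring
    rw [h4, h1, mul_zero]
  have key : ∀ {N : ℤ} {F : MvPolynomial (Fin (n + 1)) ℂ}, HomZ F N → F ∈ I →
      ∀ i, grad (lsub T F) (S z) i = (-1) * l ^ N * grad F (S z) i := by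
    intro N F hFN hFI i
    have h1 : grad (lsub T F) (S z) i = ∑ k, T (Pi.single i 1) k * grad F (T (S z)) k :=
      grad_lsub T F (S z) i
    have h2 : ∀ k, grad F (T (S z)) k = l ^ (N - 1) * grad F (S z) k := by
      intro k
      unfold grad
      rw [hTx, eval_smul_homZ (homZ_pderiv hFN k)]
    obtain ⟨y, hy⟩ := hr (T (Pi.single i 1) + l • Pi.single i 1) (by
      rw [map_add, map_smul, hinv]
      module)
    have h3 := hdir F hFI y
    rw [hy] at h3
    have h4 : ∑ k, T (Pi.single i 1) k * grad F (S z) k = - l * grad F (S z) i := by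
      have h5 : ∀ k, (T (Pi.single i 1) + l • Pi.single i 1 : Fin (n + 1) → ℂ) k *
          grad F (S z) k = T (Pi.single i 1) k * grad F (S z) k +
          l * ((Pi.single i 1 : Fin (n + 1) → ℂ) k * grad F (S z) k) := by
        intro k
        rw [Pi.add_apply, Pi.smul_apply, smul_eq_mul]
        ring
      simp_rw [h5] at h3
      rw [Finset.sum_add_distrib, ← Finset.mul_sum] at h3
      have h6 : ∑ k, (Pi.single i 1 : Fin (n + 1) → ℂ) k * grad F (S z) k = grad F (S z) i := by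
        rw [Finset.sum_eq_single i]
        · rw [Pi.single_eq_same, one_mul]
        · intro k _ hk
          rw [Pi.single_eq_of_ne hk, zero_mul]
        · intro h
          exact absurd (Finset.mem_univ _) h
      rw [h6] at h3
      linear_combination h3
    rw [h1]
    simp_rw [h2]
    have h7 : ∀ k, T (Pi.single i 1) k * (l ^ (N - 1) * grad F (S z) k) =
        l ^ (N - 1) * (T (Pi.single i 1) k * grad F (S z) k) := fun k => by ring
    simp_rw [h7]
    rw [← Finset.mul_sum, h4]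
    have h8 : l ^ N = l ^ (N - 1) * l := by
      rw [← zpow_add_one₀ hl]
      congr 1
      ring
    rw [h8]
    ring
  apply hne
  exact Z.mu_of_grad W hμ hx hx0 hl hTx hG hH w (c := -1) (by ring)
    (key (homZ_cast (wd_homZ W Z.sec hG) (by ring)) (Z.f_mem W hG.ker))
    (key (homZ_cast (wd_homZ W Z.sec hH) (by ring)) (Z.f_mem W hH.ker))

include Z in
/-- the constant at a fixed point with eigenvectors in the conormal space -/
theorem ZS.mu_eq {μ : ℂ} (hμ : IsMu W s I T μ) {x : Fin (n + 1) → ℂ} (hx : x ∈ cone I)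
    (hx0 : x ≠ 0) {r : ℂ} (hr : r ≠ 0) (hTx : T x = r • x) {F₁ F₂ : MvPolynomial (Fin (n + 1)) ℂ}
    (h₁ : F₁ ∈ I) (h₂ : F₂ ∈ I) {i j : Fin (n + 1)} (hL : eval x (Lam F₁ F₂ i j) ≠ 0) {a b : ℂ}
    (ha : ∀ i, ∑ k, T (Pi.single i 1) k * grad F₁ x k = a * grad F₁ x i)
    (hb : ∀ i, ∑ k, T (Pi.single i 1) k * grad F₂ x k = b * grad F₂ x i) :
    a * b * r ^ (W.κ.1 - 2) = μ := by
  obtain ⟨c, d, G, H, hG, hH, w⟩ := exists_sec_ne W x hx0
  obtain ⟨a₁, b₁, e₁⟩ := Z.grad_gen W hG.ker hH.ker hx hx0 w h₁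
  obtain ⟨a₂, b₂, e₂⟩ := Z.grad_gen W hG.ker hH.ker hx hx0 w h₂
  have hdet : ∀ i j, eval x (Lam F₁ F₂ i j) =
      (a₁ * b₂ - a₂ * b₁) * eval x (Lam (W.wd s G) (W.wd s H) i j) := by
    intro i j
    rw [eval_Lam, eval_Lam, e₁, e₁, e₂, e₂]
    ring
  have hd0 : a₁ * b₂ - a₂ * b₁ ≠ 0 := by
    intro h
    apply hL
    rw [hdet, h, zero_mul]
  have hL0 : eval x (Lam (W.wd s G) (W.wd s H) i j) ≠ 0 := by
    intro h
    apply hL
    rw [hdet, h, mul_zero]
  have hsum : ∀ i j, ∑ k, ∑ l, T (Pi.single i 1) k * T (Pi.single j 1) l *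
      eval x (Lam F₁ F₂ k l) = a * b * eval x (Lam F₁ F₂ i j) := by
    intro i j
    have h1 : ∀ k l, T (Pi.single i 1) k * T (Pi.single j 1) l * eval x (Lam F₁ F₂ k l) =
        (T (Pi.single i 1) k * grad F₁ x k) * (T (Pi.single j 1) l * grad F₂ x l) -
        (T (Pi.single i 1) k * grad F₂ x k) * (T (Pi.single j 1) l * grad F₁ x l) := by
      intro k l
      rw [eval_Lam]
      ring
    simp_rw [h1, Finset.sum_sub_distrib, ← Finset.mul_sum, ← Finset.sum_mul]
    rw [ha, ha, hb, hb, eval_Lam]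
    ring
  have hT : eval x (Lam (lsub T (W.wd s G)) (lsub T (W.wd s H)) i j) =
      r ^ (c + d + 2 * W.κ.1 - 2) * (a * b) * eval x (Lam (W.wd s G) (W.wd s H) i j) := by
    rw [Lam_lsub]
    have d1 : ∀ k l, HomZ (Lam (W.wd s G) (W.wd s H) k l) (c + d + 2 * W.κ.1 - 2) := fun k l =>
      homZ_cast (homZ_Lam (wd_homZ W Z.sec hG) (wd_homZ W Z.sec hH) k l) (by ring)
    have h2 : ∀ k l, T (Pi.single i 1) k * T (Pi.single j 1) l *
        eval (T x) (Lam (W.wd s G) (W.wd s H) k l) = (r ^ (c + d + 2 * W.κ.1 - 2) /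
          (a₁ * b₂ - a₂ * b₁)) * (T (Pi.single i 1) k * T (Pi.single j 1) l *
          eval x (Lam F₁ F₂ k l)) := by
      intro k l
      rw [hTx, eval_smul_homZ (d1 k l), hdet]
      field_simp
    simp_rw [h2, ← Finset.mul_sum]
    rw [hsum, hdet]
    field_simp
  have h3 := mu_rel W hμ hx hx0 hTx hG hH w i j
  rw [hT] at h3
  have h4 : r ^ (c + d + 2 * W.κ.1 - 2) = r ^ (c + d + W.κ.1) * r ^ (W.κ.1 - 2) := by
    rw [← zpow_add₀ hr]
    congr 1
    ring
  rw [h4] at h3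
  have h5 : r ^ (c + d + W.κ.1) ≠ 0 := zpow_ne_zero _ hr
  apply mul_right_cancel₀ (mul_ne_zero h5 hL0)
  linear_combination h3

end Pool.Agent.W467.FX
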